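import Mathlib

/-!
Noncommutative polynomials without constant term, the varieties `M(n)` and `S(n)` and the
equality problem (MP_79b5eb_lc).
-/

set_option autoImplicit false

universe u v

namespace Pool.Agent.R571.PIW

/-- A noncommutative polynomial without constant term in the variables `x_0, x_1, …`, as a list of
terms: `(c, i, [j, k, …])` stands for the term `c x_i x_j x_k ⋯`. -/
abbrev NCPoly (R : Type v) : Type v := List (R × (ℕ × List ℕ))

/-- The value of the nonempty word `x_{w.1} x_{w.2[0]} x_{w.2[1]} ⋯`. -/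
def wordEval {A : Type u} [Mul A] (x : ℕ → A) (w : ℕ × List ℕ) : A :=
  w.2.foldl (fun a i => a * x i) (x w.1)

/-- The value of a polynomial at `x_0, x_1, … ∈ A`. -/
def evalP {R : Type v} {A : Type u} [NonUnitalRing A] [SMul R A] (x : ℕ → A) (p : NCPoly R) : A :=
  (p.map fun c => c.1 • wordEval x c.2).sum

/-- `A` belongs to the variety `M(n)` of algebras over `F`: it satisfies every identity of the
algebra of `n × n` matrices over `F`. -/
def InM (n : ℕ) (F : Type u) [Field F] (A : Type u) [NonUnitalRing A] [Module F A] : Prop :=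
  ∀ f : NCPoly F, (∀ x : ℕ → Matrix (Fin n) (Fin n) F, evalP x f = 0) →
    ∀ x : ℕ → A, evalP x f = 0

/-- The product of a nonempty list. -/
def listProd {A : Type u} [Mul A] [Zero A] : List A → A
  | [] => 0
  | a :: l => l.foldl (· * ·) a

/-- `A` belongs to the variety `S(n)`: it satisfies the standard identity `s_n = 0`. -/
def InS (n : ℕ) (A : Type u) [NonUnitalRing A] : Prop :=
  ∀ x : Fin n → A, ∑ σ : Equiv.Perm (Fin n),
    (Equiv.Perm.sign σ : ℤ) • listProd (List.ofFn fun i => x (σ i)) = 0

/-- The quasi-identity `u_1 = 0 ∧ ⋯ ∧ u_k = 0 → u = 0` holds in every algebra of `M(n)`. -/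
def HoldsM (n : ℕ) (F : Type u) [Field F] (us : List (NCPoly ℤ)) (w : NCPoly ℤ) : Prop :=
  ∀ (A : Type u) [NonUnitalRing A] [Module F A] [IsScalarTower F A A] [SMulCommClass F A A],
    InM n F A → ∀ x : ℕ → A, (∀ p ∈ us, evalP x p = 0) → evalP x w = 0

/-- The quasi-identity `u_1 = 0 ∧ ⋯ ∧ u_k = 0 → u = 0` holds in every algebra of `S(n)`. -/
def HoldsS (n : ℕ) (F : Type u) [Field F] (us : List (NCPoly ℤ)) (w : NCPoly ℤ) : Prop :=
  ∀ (A : Type u) [NonUnitalRing A] [Module F A] [IsScalarTower F A A] [SMulCommClass F A A],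
    InS n A → ∀ x : ℕ → A, (∀ p ∈ us, evalP x p = 0) → evalP x w = 0

end Pool.Agent.R571.PIW
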