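import Mathlib
import Pool.Agent.Helper599.Source
import Pool.Agent.R571.PIW.Defs

/-!
The relations which simulate a counter machine, and the derivation (MP_79b5eb_lc).
-/

set_option autoImplicit false

universe u v

namespace Pool.Agent.R571.PIW

open Pool.Agent.Helper599.Core

variable {Q : Type} (M : Sys Q Bool)

/-- The letters: `U`, `W` are the ends, `C j`, `D j` the counters on the left and on the right, and
`V` the states. -/
inductive G : Type
  | U | W
  | C (j : Bool)
  | D (j : Bool)
  | V (σ : Option Q ⊕ (Q × (Bool → Fin M.B)))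

instance [Finite Q] : Finite (G M) := by
  refine Finite.of_injective (β := Unit ⊕ Unit ⊕ Bool ⊕ Bool ⊕ (Option Q ⊕ (Q × (Bool → Fin M.B))))
    (fun g => match g with
      | .U => .inl ()
      | .W => .inr (.inl ())
      | .C j => .inr (.inr (.inl j))
      | .D j => .inr (.inr (.inr (.inl j)))
      | .V σ => .inr (.inr (.inr (.inr σ)))) ?_
  intro a b h
  cases a <;> cases b <;> simp_all

open G in
/-- The relations. -/
def Rel (l r : List (G M)) : Prop :=
  (l = [C false, C true] ∧ r = [C true, C false]) ∨
  (l = [D false, D true] ∧ r = [D true, D false]) ∨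
  (∃ (q : Q) (j : Bool), l = V (.inl (some q)) :: List.replicate M.B (D j) ∧
    r = [C j, V (.inl (some q))]) ∨
  (∃ (q : Q) (s : Bool → Fin M.B), l = V (.inl (some q)) ::
    (List.replicate (s false) (D false) ++ List.replicate (s true) (D true) ++ [W]) ∧
    r = [V (.inr (q, s)), W]) ∨
  (∃ (q : Q) (s : Bool → Fin M.B) (j : Bool), l = [C j, V (.inr (q, s))] ∧
    r = V (.inr (q, s)) :: List.replicate (M.a q s j) (D j)) ∨
  (∃ (q : Q) (s : Bool → Fin M.B), l = [U, V (.inr (q, s))] ∧
    r = U :: V (.inl (M.nxt q s)) :: (List.replicate (M.b q s false) (D false) ++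
      List.replicate (M.b q s true) (D true))) ∨
  (∃ j : Bool, l = [V (.inl none), D j] ∧ r = [V (.inl none)])

/-- The relations form a finite set of pairs of nonempty words. -/
theorem rel_finite [Finite Q] : {p : List (G M) × List (G M) | Rel M p.1 p.2}.Finite := by
  have h : {p : List (G M) × List (G M) | Rel M p.1 p.2} =
      {([G.C false, G.C true], [G.C true, G.C false])} ∪
      {([G.D false, G.D true], [G.D true, G.D false])} ∪
      Set.range (fun p : Q × Bool => ((G.V (.inl (some p.1)) :: List.replicate M.B (G.D p.2),
        [G.C p.2, G.V (.inl (some p.1))]) : List (G M) × List (G M))) ∪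
      Set.range (fun p : Q × (Bool → Fin M.B) => ((G.V (.inl (some p.1)) ::
        (List.replicate (p.2 false) (G.D false) ++ List.replicate (p.2 true) (G.D true) ++ [G.W]),
        [G.V (.inr (p.1, p.2)), G.W]) : List (G M) × List (G M))) ∪
      Set.range (fun p : (Q × (Bool → Fin M.B)) × Bool => (([G.C p.2, G.V (.inr (p.1.1, p.1.2))],
        G.V (.inr (p.1.1, p.1.2)) :: List.replicate (M.a p.1.1 p.1.2 p.2) (G.D p.2))
        : List (G M) × List (G M))) ∪
      Set.range (fun p : Q × (Bool → Fin M.B) => (([G.U, G.V (.inr (p.1, p.2))],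
        G.U :: G.V (.inl (M.nxt p.1 p.2)) :: (List.replicate (M.b p.1 p.2 false) (G.D false) ++
      List.replicate (M.b p.1 p.2 true) (G.D true))) : List (G M) × List (G M))) ∪
      Set.range (fun j : Bool => (([G.V (.inl none), G.D j], [G.V (.inl none)])
        : List (G M) × List (G M))) := by
    ext ⟨l, r⟩
    simp only [Rel, Set.mem_ofPred_eq, Set.mem_union, Set.mem_singleton_iff, Set.mem_range,
      Prod.mk.injEq, Prod.exists, eq_comm (a := l), eq_comm (a := r), or_assoc]
  rw [h]
  refine Set.Finite.union (Set.Finite.union (Set.Finite.union (Set.Finite.union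
    (Set.Finite.union (Set.Finite.union ?_ ?_) ?_) ?_) ?_) ?_) ?_
  · exact Set.finite_singleton _
  · exact Set.finite_singleton _
  · exact Set.finite_range _
  · exact Set.finite_range _
  · exact Set.finite_range _
  · exact Set.finite_range _
  · exact Set.finite_range _

/-! ### The derivation -/

section Derivation

variable {M} {R : Type v} [Monoid R] (y : G M → R)

theorem derive (hrel : ∀ l r, Rel M l r → (l.map y).prod = (r.map y).prod) (o : Option Q)
    (n : Bool → ℕ) (h : M.Halts o n) :
    y .U * y (.V (.inl o)) * y (.D false) ^ n false * y (.D true) ^ n true * y .W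
      = y .U * y (.V (.inl none)) * y .W := by
  have hC : y (.C false) * y (.C true) = y (.C true) * y (.C false) := by
    have := hrel _ _ (Or.inl ⟨rfl, rfl⟩)
    simpa using this
  have hD : y (.D false) * y (.D true) = y (.D true) * y (.D false) := by
    have := hrel _ _ (Or.inr (Or.inl ⟨rfl, rfl⟩))
    simpa using this
  have hA : ∀ (q : Q) (j : Bool), y (.V (.inl (some q))) * y (.D j) ^ M.B
      = y (.C j) * y (.V (.inl (some q))) := by
    intro q j
    have := hrel _ _ (Or.inr (Or.inr (Or.inl ⟨q, j, rfl, rfl⟩)))
    simpa using this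
  have hA' : ∀ (q : Q) (s : Bool → Fin M.B), y (.V (.inl (some q))) *
      (y (.D false) ^ (s false : ℕ) * y (.D true) ^ (s true : ℕ) * y .W)
      = y (.V (.inr (q, s))) * y .W := by
    intro q s
    have := hrel _ _ (Or.inr (Or.inr (Or.inr (Or.inl ⟨q, s, rfl, rfl⟩))))
    simpa [mul_assoc] using this
  have hB : ∀ (q : Q) (s : Bool → Fin M.B) (j : Bool), y (.C j) * y (.V (.inr (q, s)))
      = y (.V (.inr (q, s))) * y (.D j) ^ (M.a q s j) := by
    intro q s j
    have := hrel _ _ (Or.inr (Or.inr (Or.inr (Or.inr (Or.inl ⟨q, s, j, rfl, rfl⟩)))))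
    simpa using this
  have hB' : ∀ (q : Q) (s : Bool → Fin M.B), y .U * y (.V (.inr (q, s)))
      = y .U * y (.V (.inl (M.nxt q s))) *
        (y (.D false) ^ (M.b q s false) * y (.D true) ^ (M.b q s true)) := by
    intro q s
    have := hrel _ _ (Or.inr (Or.inr (Or.inr (Or.inr (Or.inr (Or.inl ⟨q, s, rfl, rfl⟩))))))
    simpa [mul_assoc] using this
  have hN : ∀ j : Bool, y (.V (.inl none)) * y (.D j) = y (.V (.inl none)) := by
    intro j
    have := hrel _ _ (Or.inr (Or.inr (Or.inr (Or.inr (Or.inr (Or.inr ⟨j, rfl, rfl⟩))))))
    simpa using this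
  have cD : ∀ a b : ℕ, y (.D true) ^ a * y (.D false) ^ b = y (.D false) ^ b * y (.D true) ^ a :=
    fun a b => ((Commute.pow_pow (show Commute (y (.D false)) (y (.D true)) from hD) b a)).symm
  induction h with
  | stop n =>
    have hNp : ∀ (j : Bool) (k : ℕ), y (.V (.inl none)) * y (.D j) ^ k = y (.V (.inl none)) := by
      intro j k
      induction k with
      | zero => simp
      | succ k ih => rw [pow_succ, ← mul_assoc, ih, hN]
    rw [mul_assoc (y .U), hNp, mul_assoc (y .U), hNp]
  | step q n h ih =>
    -- move blocks to the left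
    have hApow : ∀ (j : Bool) (k : ℕ), y (.V (.inl (some q))) * y (.D j) ^ (M.B * k)
        = y (.C j) ^ k * y (.V (.inl (some q))) := by
      intro j k
      induction k with
      | zero => simp
      | succ k ih =>
        rw [Nat.mul_succ, pow_add, ← mul_assoc, ih, mul_assoc, hA, ← mul_assoc, pow_succ]
    set s : Bool → Fin M.B := M.res n with hs
    have hBpow : ∀ (j : Bool) (k : ℕ), y (.C j) ^ k * y (.V (.inr (q, s)))
        = y (.V (.inr (q, s))) * y (.D j) ^ (M.a q s j * k) := by
      intro j k
      induction k with
      | zero => simp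
      | succ k ih =>
        rw [pow_succ', mul_assoc, ih, ← mul_assoc, hB, mul_assoc, ← pow_add, Nat.mul_succ,
          Nat.add_comm]
    have hdecomp : ∀ j, n j = M.B * (n j / M.B) + (s j : ℕ) := by
      intro j
      have := Nat.div_add_mod (n j) M.B
      simp only [hs, Sys.res]
      omega
    have e1 : y (.V (.inl (some q))) * y (.D false) ^ n false * y (.D true) ^ n true * y .W
        = y (.C true) ^ (n true / M.B) * (y (.C false) ^ (n false / M.B)
          * (y (.V (.inr (q, s))) * y .W)) := by
      rw [← hA' q s]
      conv_lhs => rw [hdecomp false, hdecomp true, pow_add, pow_add]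
      have c1 := cD (M.B * (n true / M.B)) (s false : ℕ)
      have c2 := cD (M.B * (n true / M.B)) (M.B * (n false / M.B))
      calc y (.V (.inl (some q))) * (y (.D false) ^ (M.B * (n false / M.B))
            * y (.D false) ^ (s false : ℕ)) * (y (.D true) ^ (M.B * (n true / M.B))
            * y (.D true) ^ (s true : ℕ)) * y .W
          = y (.V (.inl (some q))) * (y (.D false) ^ (M.B * (n false / M.B))
            * (y (.D false) ^ (s false : ℕ) * y (.D true) ^ (M.B * (n true / M.B)))
            * y (.D true) ^ (s true : ℕ)) * y .W := by simp only [mul_assoc]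
        _ = y (.V (.inl (some q))) * ((y (.D false) ^ (M.B * (n false / M.B))
            * y (.D true) ^ (M.B * (n true / M.B))) * y (.D false) ^ (s false : ℕ)
            * y (.D true) ^ (s true : ℕ)) * y .W := by rw [← c1]; simp only [mul_assoc]
        _ = (y (.V (.inl (some q))) * y (.D true) ^ (M.B * (n true / M.B)))
            * y (.D false) ^ (M.B * (n false / M.B)) * (y (.D false) ^ (s false : ℕ)
            * y (.D true) ^ (s true : ℕ) * y .W) := by rw [← c2]; simp only [mul_assoc]
        _ = y (.C true) ^ (n true / M.B) * (y (.V (.inl (some q)))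
            * y (.D false) ^ (M.B * (n false / M.B))) * (y (.D false) ^ (s false : ℕ)
            * y (.D true) ^ (s true : ℕ) * y .W) := by rw [hApow]; simp only [mul_assoc]
        _ = _ := by rw [hApow]; simp only [mul_assoc]
    have e2 : y (.C true) ^ (n true / M.B) * (y (.C false) ^ (n false / M.B)
          * (y (.V (.inr (q, s))) * y .W))
        = y (.V (.inr (q, s))) * (y (.D true) ^ (M.a q s true * (n true / M.B))
          * y (.D false) ^ (M.a q s false * (n false / M.B))) * y .W := by
      rw [← mul_assoc (y (.C false) ^ (n false / M.B)), hBpow false, mul_assoc, ← mul_assoc, hBpow]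
      simp only [mul_assoc]
    have e3 : y .U * y (.V (.inl (some q))) * y (.D false) ^ n false * y (.D true) ^ n true * y .W
        = y .U * y (.V (.inl (M.nxt q s))) * y (.D false) ^ (M.nn q n false)
          * y (.D true) ^ (M.nn q n true) * y .W := by
      calc y .U * y (.V (.inl (some q))) * y (.D false) ^ n false * y (.D true) ^ n true * y .W
          = y .U * (y (.V (.inl (some q))) * y (.D false) ^ n false * y (.D true) ^ n true
            * y .W) := by simp only [mul_assoc]
        _ = (y .U * y (.V (.inr (q, s)))) * (y (.D true) ^ (M.a q s true * (n true / M.B))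
          * y (.D false) ^ (M.a q s false * (n false / M.B))) * y .W := by
            rw [e1, e2]; simp only [mul_assoc]
        _ = y .U * y (.V (.inl (M.nxt q s))) * (y (.D false) ^ (M.b q s false)
          * (y (.D true) ^ (M.b q s true) * y (.D true) ^ (M.a q s true * (n true / M.B)))
          * y (.D false) ^ (M.a q s false * (n false / M.B))) * y .W := by
            rw [hB']; simp only [mul_assoc]
        _ = y .U * y (.V (.inl (M.nxt q s))) * (y (.D false) ^ (M.b q s false)
          * (y (.D false) ^ (M.a q s false * (n false / M.B)) *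
          y (.D true) ^ (M.b q s true + M.a q s true * (n true / M.B)))) * y .W := by
            rw [← pow_add, mul_assoc (y (.D false) ^ M.b q s false), cD]
        _ = y .U * y (.V (.inl (M.nxt q s))) * (y (.D false) ^ (M.b q s false
          + M.a q s false * (n false / M.B)) *
          y (.D true) ^ (M.b q s true + M.a q s true * (n true / M.B))) * y .W := by
            rw [pow_add _ (M.b q s false)]; simp only [mul_assoc]
        _ = _ := by
            have f : ∀ j, M.b q s j + M.a q s j * (n j / M.B) = M.nn q n j := by
              intro j; simp only [Sys.nn, ← hs]; omega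
            rw [f, f]
            simp only [mul_assoc]
    rw [e3]
    exact ih

end Derivation

end Pool.Agent.R571.PIW
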