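import Mathlib
import Pool.Agent.R571.PIW.Mach

/-!
The model: a quotient of an algebra of matrices over a polynomial ring (MP_79b5eb_lc).
-/

set_option autoImplicit false

universe u v

namespace Pool.Agent.R571.PIW

open Pool.Agent.Helper599.Core MvPolynomial

variable {Q : Type} (M : Sys Q Bool)

/-- The exponent of the commutative image of a word. -/
noncomputable def mon (z : List (G M)) : G M →₀ ℕ := (z.map fun g => Finsupp.single g 1).sum

theorem mon_cons (g : G M) (z : List (G M)) : mon M (g :: z) = Finsupp.single g 1 + mon M z := by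
  simp [mon]

theorem mon_append (y z : List (G M)) : mon M (y ++ z) = mon M y + mon M z := by
  simp [mon]

theorem mon_nil : mon M [] = 0 := rfl

/-- The meaning of a configuration. -/
def Good : (Option Q ⊕ (Q × (Bool → Fin M.B))) → (Bool → ℕ) → (Bool → ℕ) → Prop
  | .inl none, _, _ => True
  | .inl (some q), l, m => M.Halts (some q) (fun j => m j + M.B * l j)
  | .inr (q, s), l, m => M.Halts (M.nxt q s) (fun j => M.a q s j * l j + m j + M.b q s j)

/-- The exponents of the words which stand for halting configurations. -/
def GoodMon (m : G M →₀ ℕ) : Prop :=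
  m .U = 1 ∧ m .W = 1 ∧ ∃ σ, m (.V σ) = 1 ∧ (∀ τ, τ ≠ σ → m (.V τ) = 0) ∧
    Good M σ (fun j => m (.C j)) (fun j => m (.D j))

open Classical in
theorem goodMon_add (m₀ m₁ : G M →₀ ℕ) (σ : Option Q ⊕ (Q × (Bool → Fin M.B)))
    (h : ∀ τ, m₁ (.V τ) = if τ = σ then 1 else 0) :
    GoodMon M (m₀ + m₁) ↔ m₀ .U + m₁ .U = 1 ∧ m₀ .W + m₁ .W = 1 ∧ (∀ τ, m₀ (.V τ) = 0) ∧
      Good M σ (fun j => m₀ (.C j) + m₁ (.C j)) (fun j => m₀ (.D j) + m₁ (.D j)) := by
  unfold GoodMon
  simp only [Finsupp.add_apply]
  constructor
  · rintro ⟨h1, h2, σ', h3, h4, h5⟩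
    have hσ : σ' = σ := by
      by_contra hne
      have := h4 σ (Ne.symm hne)
      rw [h σ, if_pos rfl] at this
      omega
    subst hσ
    refine ⟨h1, h2, fun τ => ?_, h5⟩
    by_cases hτ : τ = σ'
    · subst hτ
      rw [h, if_pos rfl] at h3
      omega
    · have := h4 τ hτ
      omega
  · rintro ⟨h1, h2, h3, h5⟩
    refine ⟨h1, h2, σ, ?_, fun τ hτ => ?_, h5⟩
    · rw [h3, h, if_pos rfl]
    · rw [h3, h, if_neg hτ]

section Paths

variable {ν : Type} (a p₁ p₂ b : ν)

/-- The source of a letter. -/
def src : G M → ν
  | .U => a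
  | .W => p₂
  | .C _ => p₁
  | .D _ => p₂
  | .V _ => p₁

/-- The target of a letter. -/
def tgt : G M → ν
  | .U => p₁
  | .W => b
  | .C _ => p₁
  | .D _ => p₂
  | .V _ => p₂

/-- `z` is a path from `i` to `j`. -/
def Path : ν → List (G M) → ν → Prop
  | i, [], j => i = j
  | i, g :: z, j => i = src M a p₁ p₂ g ∧ Path (tgt M p₁ p₂ b g) z j

theorem path_append (i : ν) (y z : List (G M)) (j : ν) :
    Path M a p₁ p₂ b i (y ++ z) j ↔ ∃ k, Path M a p₁ p₂ b i y k ∧ Path M a p₁ p₂ b k z j := by
  induction y generalizing i with
  | nil => simp [Path]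
  | cons g y ih =>
    simp only [List.cons_append, Path, ih]
    constructor
    · rintro ⟨h, k, h1, h2⟩
      exact ⟨k, ⟨h, h1⟩, h2⟩
    · rintro ⟨k, ⟨h, h1⟩, h2⟩
      exact ⟨h, k, h1, h2⟩

variable {M a p₁ p₂ b}

/-- A path which ends in `b` and does not use `W` and starts in `b` is empty. -/
theorem path_b_nil (hb1 : b ≠ p₁) (hb2 : b ≠ p₂) (z : List (G M)) (i : ν)
    (h : Path M a p₁ p₂ b i z b) (hW : mon M z .W = 0) : z = [] := by
  rcases List.eq_nil_or_concat z with hz | ⟨y, g, rfl⟩
  · exact hz
  · exfalso
    rw [List.concat_eq_append, path_append] at h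
    obtain ⟨k, -, h2⟩ := h
    simp only [Path] at h2
    obtain ⟨-, h3⟩ := h2
    rw [List.concat_eq_append, mon_append, Finsupp.add_apply, mon_cons, Finsupp.add_apply] at hW
    cases g with
    | U => exact hb1 h3.symm
    | W => simp at hW
    | C j => exact hb1 h3.symm
    | D j => exact hb2 h3.symm
    | V σ => exact hb2 h3.symm

/-- A path which starts in `a` and does not use `U` is empty. -/
theorem path_a_nil (ha1 : a ≠ p₁) (ha2 : a ≠ p₂) (z : List (G M)) (j : ν)
    (h : Path M a p₁ p₂ b a z j) (hU : mon M z .U = 0) : z = [] := by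
  cases z with
  | nil => rfl
  | cons g z =>
    exfalso
    simp only [Path] at h
    rw [mon_cons, Finsupp.add_apply] at hU
    cases g with
    | U => simp at hU
    | W => exact ha2 h.1
    | C j => exact ha1 h.1
    | D j => exact ha2 h.1
    | V σ => exact ha1 h.1

/-- A path from `p₁` without states has only letters `C`. -/
theorem path_p1 (ha1 : a ≠ p₁) (hp : p₁ ≠ p₂) (z : List (G M)) (j : ν)
    (h : Path M a p₁ p₂ b p₁ z j) (hV : ∀ σ, mon M z (.V σ) = 0) (i : Bool) :
    mon M z (.D i) = 0 := by
  induction z with
  | nil => rfl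
  | cons g z ih =>
    simp only [Path] at h
    simp only [mon_cons, Finsupp.add_apply] at hV ⊢
    cases g with
    | U => exact absurd h.1.symm ha1
    | W => exact absurd h.1 hp
    | C k =>
      rw [ih h.2 fun σ => by have := hV σ; omega]
      simp
    | D k => exact absurd h.1 hp
    | V σ => have := hV σ; simp at this

/-- A path from `a` without states has no letters `D`. -/
theorem path_a_D (ha1 : a ≠ p₁) (ha2 : a ≠ p₂) (hp : p₁ ≠ p₂) (z : List (G M)) (j : ν)
    (h : Path M a p₁ p₂ b a z j) (hV : ∀ σ, mon M z (.V σ) = 0) (i : Bool) :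
    mon M z (.D i) = 0 := by
  cases z with
  | nil => rfl
  | cons g z =>
    simp only [Path] at h
    simp only [mon_cons, Finsupp.add_apply] at hV ⊢
    cases g with
    | U =>
      rw [path_p1 ha1 hp z j h.2 fun σ => by have := hV σ; omega]
      simp
    | W => exact absurd h.1 ha2
    | C k => exact absurd h.1 ha1
    | D k => exact absurd h.1 ha2
    | V σ => exact absurd h.1 ha1

/-- A path from `p₂` without `U` has no letters `C`. -/
theorem path_p2_C (ha2 : a ≠ p₂) (hp : p₁ ≠ p₂) (hb1 : b ≠ p₁) (hb2 : b ≠ p₂)
    (z : List (G M)) (j : ν)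
    (h : Path M a p₁ p₂ b p₂ z j) (hU : mon M z .U = 0) (i : Bool) :
    mon M z (.C i) = 0 := by
  induction z with
  | nil => rfl
  | cons g z ih =>
    simp only [Path] at h
    simp only [mon_cons, Finsupp.add_apply] at hU ⊢
    cases g with
    | U => exact absurd h.1.symm ha2
    | W =>
      have hz : z = [] := by
        cases z with
        | nil => rfl
        | cons g' z' =>
          exfalso
          simp only [Path, mon_cons, Finsupp.add_apply] at h hU
          cases g' with
          | U => simp at hU
          | W => exact hb2 h.2.1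
          | C k => exact hb1 h.2.1
          | D k => exact hb2 h.2.1
          | V σ => exact hb1 h.2.1
      subst hz
      simp [mon_nil]
    | C k => exact absurd h.1.symm hp
    | D k =>
      rw [ih h.2 (by omega)]
      simp
    | V σ => exact absurd h.1.symm hp

variable (M a p₁ p₂ b)

theorem mon_replicate (n : ℕ) (g : G M) : mon M (List.replicate n g) = Finsupp.single g n := by
  induction n with
  | zero => simp [mon_nil]
  | succ n ih => rw [List.replicate_succ, mon_cons, ih, ← Finsupp.single_add, Nat.add_comm]

theorem path_replicate (n : ℕ) (j : Bool) (z : List (G M)) (k : ν) :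
    Path M a p₁ p₂ b p₂ (List.replicate n (.D j) ++ z) k ↔ Path M a p₁ p₂ b p₂ z k := by
  induction n with
  | zero => simp
  | succ n ih => simp [List.replicate_succ, Path, src, tgt, ih]

theorem path_replicate' (n : ℕ) (j : Bool) (k : ν) :
    Path M a p₁ p₂ b p₂ (List.replicate n (.D j)) k ↔ p₂ = k := by
  have := path_replicate M a p₁ p₂ b n j [] k
  rw [List.append_nil] at this
  exact this

/-- `z` is a good path from `a` to `b`. -/
def OK (z : List (G M)) : Prop := Path M a p₁ p₂ b a z b ∧ GoodMon M (mon M z)

theorem ctx (x y l r : List (G M)) (k k' : ν)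
    (hl : ∀ i j, Path M a p₁ p₂ b i l j ↔ i = k ∧ k' = j)
    (hr : ∀ i j, Path M a p₁ p₂ b i r j ↔ i = k ∧ k' = j)
    (hg : Path M a p₁ p₂ b a x k → Path M a p₁ p₂ b k' y b →
      (GoodMon M (mon M x + mon M y + mon M l) ↔ GoodMon M (mon M x + mon M y + mon M r))) :
    OK M a p₁ p₂ b (x ++ l ++ y) ↔ OK M a p₁ p₂ b (x ++ r ++ y) := by
  have e : ∀ z, mon M (x ++ z ++ y) = mon M x + mon M y + mon M z := by
    intro z
    rw [mon_append, mon_append, add_assoc, add_assoc, add_comm (mon M z)]
  have e2 : ∀ z, (∀ i j, Path M a p₁ p₂ b i z j ↔ i = k ∧ k' = j) →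
      (Path M a p₁ p₂ b a (x ++ z ++ y) b ↔
        (Path M a p₁ p₂ b a x k ∧ Path M a p₁ p₂ b k' y b)) := by
    intro z hz
    rw [path_append]
    constructor
    · rintro ⟨u, hu, hy⟩
      rw [path_append] at hu
      obtain ⟨v, hv, hvu⟩ := hu
      obtain ⟨rfl, rfl⟩ := (hz _ _).1 hvu
      exact ⟨hv, hy⟩
    · rintro ⟨h1, h2⟩
      refine ⟨k', ?_, h2⟩
      rw [path_append]
      exact ⟨k, h1, (hz _ _).2 ⟨rfl, rfl⟩⟩
  unfold OK
  rw [e l, e r, e2 l hl, e2 r hr]
  constructor
  · rintro ⟨⟨h1, h2⟩, h3⟩
    exact ⟨⟨h1, h2⟩, (hg h1 h2).1 h3⟩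
  · rintro ⟨⟨h1, h2⟩, h3⟩
    exact ⟨⟨h1, h2⟩, (hg h1 h2).2 h3⟩

theorem halts_some (q : Q) (n : Bool → ℕ) :
    M.Halts (some q) n ↔ M.Halts (M.nxt q (M.res n)) (M.nn q n) := by
  constructor
  · intro h
    cases h with
    | step _ _ h => exact h
  · exact Sys.Halts.step q n

variable (ha1 : a ≠ p₁) (ha2 : a ≠ p₂) (hp : p₁ ≠ p₂) (hb1 : b ≠ p₁) (hb2 : b ≠ p₂)

include ha1 ha2 hp hb1 hb2

theorem ok_iff (x y l r : List (G M)) (h : Rel M l r) :
    OK M a p₁ p₂ b (x ++ l ++ y) ↔ OK M a p₁ p₂ b (x ++ r ++ y) := by
  classical
  rcases h with ⟨rfl, rfl⟩ | ⟨rfl, rfl⟩ | ⟨q, j, rfl, rfl⟩ | ⟨q, s, rfl, rfl⟩ | ⟨q, s, j, rfl, rfl⟩ |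
    ⟨q, s, rfl, rfl⟩ | ⟨j, rfl, rfl⟩
  · refine ctx M a p₁ p₂ b x y _ _ p₁ p₁ ?_ ?_ ?_
    · intro i j; simp [Path, src, tgt]
    · intro i j; simp [Path, src, tgt]
    · intro _ _
      simp only [mon_cons, mon_nil, add_zero]
      rw [add_comm (Finsupp.single (G.C false) 1)]
  · refine ctx M a p₁ p₂ b x y _ _ p₂ p₂ ?_ ?_ ?_
    · intro i j; simp [Path, src, tgt]
    · intro i j; simp [Path, src, tgt]
    · intro _ _
      simp only [mon_cons, mon_nil, add_zero]
      rw [add_comm (Finsupp.single (G.D false) 1)]
  · refine ctx M a p₁ p₂ b x y _ _ p₁ p₂ ?_ ?_ ?_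
    · intro i k; simp [Path, src, tgt, path_replicate']
    · intro i k; simp [Path, src, tgt]
    · intro _ _
      rw [goodMon_add M _ _ (.inl (some q)) (fun τ => by
          simp [mon_cons, mon_replicate, Finsupp.single_apply, eq_comm]),
        goodMon_add M _ _ (.inl (some q)) (fun τ => by
          simp [mon_cons, mon_nil, Finsupp.single_apply, eq_comm])]
      refine and_congr (by simp [mon_cons, mon_nil, mon_replicate, Finsupp.single_apply])
        (and_congr (by simp [mon_cons, mon_nil, mon_replicate, Finsupp.single_apply])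
        (and_congr Iff.rfl ?_))
      unfold Good
      have : ∀ i : Bool, (mon M x + mon M y) (.D i) + mon M (.V (.inl (some q)) ::
          List.replicate M.B (.D j)) (.D i) + M.B * ((mon M x + mon M y) (.C i) +
          mon M (.V (.inl (some q)) :: List.replicate M.B (.D j)) (.C i)) =
          (mon M x + mon M y) (.D i) + mon M [.C j, .V (.inl (some q))] (.D i) +
          M.B * ((mon M x + mon M y) (.C i) + mon M [.C j, .V (.inl (some q))] (.C i)) := by
        intro i
        simp only [mon_cons, mon_nil, mon_replicate, Finsupp.add_apply, Finsupp.single_apply,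
          reduceCtorEq, if_false, zero_add, add_zero, G.D.injEq, G.C.injEq]
        split_ifs <;> ring
      simp only [this]
  · -- the test on the right
    refine ctx M a p₁ p₂ b x y _ _ p₁ b ?_ ?_ ?_
    · intro i k
      simp only [Path, src, tgt, List.append_assoc, path_replicate, List.cons_append]
      simp
    · intro i k; simp [Path, src, tgt]
    · intro hx hy
      rw [goodMon_add M _ _ (.inl (some q)) (fun τ => by
          simp [mon_cons, mon_nil, mon_append, mon_replicate, Finsupp.single_apply, eq_comm]),
        goodMon_add M _ _ (.inr (q, s)) (fun τ => by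
          simp [mon_cons, mon_nil, Finsupp.single_apply, eq_comm])]
      refine and_congr (by simp [mon_cons, mon_nil, mon_append, mon_replicate,
          Finsupp.single_apply]) ?_
      have eW1 : mon M (.V (.inl (some q)) :: (List.replicate (s false) (.D false) ++
          List.replicate (s true) (.D true) ++ [.W])) .W = 1 := by
        simp [mon_cons, mon_nil, mon_append, mon_replicate, Finsupp.single_apply]
      have eW2 : mon M [.V (.inr (q, s)), .W] .W = 1 := by
        simp [mon_cons, mon_nil, Finsupp.single_apply]
      rw [eW1, eW2]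
      refine and_congr_right fun hW => and_congr_right fun hV => ?_
      have hWy : mon M y .W = 0 := by
        simp only [Finsupp.add_apply] at hW
        omega
      have hy0 : y = [] := path_b_nil hb1 hb2 y b hy hWy
      have hVx : ∀ σ, mon M x (.V σ) = 0 := by
        intro σ
        have := hV σ
        simp only [Finsupp.add_apply] at this
        omega
      have hDx : ∀ i, mon M x (.D i) = 0 := path_a_D ha1 ha2 hp x p₁ hx hVx
      subst hy0
      unfold Good
      dsimp only
      have hn : ∀ i : Bool, (mon M x + mon M []) (.D i) + mon M (.V (.inl (some q)) ::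
          (List.replicate (s false) (.D false) ++ List.replicate (s true) (.D true) ++ [.W]))
          (.D i) + M.B * ((mon M x + mon M []) (.C i) + mon M (.V (.inl (some q)) ::
          (List.replicate (s false) (.D false) ++ List.replicate (s true) (.D true) ++ [.W]))
          (.C i)) = (s i : ℕ) + M.B * mon M x (.C i) := by
        intro i
        simp only [mon_cons, mon_nil, mon_append, mon_replicate, Finsupp.add_apply,
          Finsupp.single_apply, reduceCtorEq, if_false, zero_add, add_zero, G.D.injEq, hDx,
          Finsupp.coe_zero, Pi.zero_apply]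
        cases i <;> simp
      have hm : ∀ i : Bool, M.a q s i * ((mon M x + mon M []) (.C i) +
          mon M [.V (.inr (q, s)), .W] (.C i)) + ((mon M x + mon M []) (.D i) +
          mon M [.V (.inr (q, s)), .W] (.D i)) + M.b q s i
          = M.a q s i * mon M x (.C i) + M.b q s i := by
        intro i
        simp only [mon_cons, mon_nil, Finsupp.add_apply,
          Finsupp.single_apply, reduceCtorEq, if_false, add_zero, hDx,
          Finsupp.coe_zero, Pi.zero_apply]
      simp only [hn, hm]
      have hres : M.res (fun i => (s i : ℕ) + M.B * mon M x (.C i)) = s := by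
        funext i
        apply Fin.ext
        simp only [Sys.res, Nat.add_mul_mod_self_left]
        exact Nat.mod_eq_of_lt (s i).2
      have hnn : M.nn q (fun i => (s i : ℕ) + M.B * mon M x (.C i))
          = fun i => M.a q s i * mon M x (.C i) + M.b q s i := by
        funext i
        simp only [Sys.nn, hres]
        have : ((s i : ℕ) + M.B * mon M x (.C i)) / M.B = mon M x (.C i) := by
          rw [Nat.add_mul_div_left _ _ M.hB, Nat.div_eq_of_lt (s i).2, Nat.zero_add]
        rw [this]
      rw [halts_some, hres, hnn]
  · refine ctx M a p₁ p₂ b x y _ _ p₁ p₂ ?_ ?_ ?_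
    · intro i k; simp [Path, src, tgt]
    · intro i k; simp [Path, src, tgt, path_replicate']
    · intro _ _
      rw [goodMon_add M _ _ (.inr (q, s)) (fun τ => by
          simp [mon_cons, mon_nil, Finsupp.single_apply, eq_comm]),
        goodMon_add M _ _ (.inr (q, s)) (fun τ => by
          simp [mon_cons, mon_replicate, Finsupp.single_apply, eq_comm])]
      refine and_congr (by simp [mon_cons, mon_nil, mon_replicate, Finsupp.single_apply])
        (and_congr (by simp [mon_cons, mon_nil, mon_replicate, Finsupp.single_apply])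
        (and_congr Iff.rfl ?_))
      unfold Good
      have : ∀ i : Bool, M.a q s i * ((mon M x + mon M y) (.C i) +
          mon M [.C j, .V (.inr (q, s))] (.C i)) + ((mon M x + mon M y) (.D i) +
          mon M [.C j, .V (.inr (q, s))] (.D i)) + M.b q s i
          = M.a q s i * ((mon M x + mon M y) (.C i) +
          mon M (.V (.inr (q, s)) :: List.replicate (M.a q s j) (.D j)) (.C i)) +
          ((mon M x + mon M y) (.D i) +
          mon M (.V (.inr (q, s)) :: List.replicate (M.a q s j) (.D j)) (.D i)) +
          M.b q s i := by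
        intro i
        simp only [mon_cons, mon_nil, mon_replicate, Finsupp.add_apply, Finsupp.single_apply,
          reduceCtorEq, if_false, zero_add, add_zero, G.D.injEq, G.C.injEq]
        split_ifs with h
        · subst h; ring
        · ring
      simp only [this]
  · -- the test on the left
    refine ctx M a p₁ p₂ b x y _ _ a p₂ ?_ ?_ ?_
    · intro i k; simp [Path, src, tgt]
    · intro i k
      simp only [Path, src, tgt, path_replicate, path_replicate']
      simp
    · intro hx hy
      rw [goodMon_add M _ _ (.inr (q, s)) (fun τ => by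
          simp [mon_cons, mon_nil, Finsupp.single_apply, eq_comm]),
        goodMon_add M _ _ (.inl (M.nxt q s)) (fun τ => by
          simp [mon_cons, mon_append, mon_replicate, Finsupp.single_apply, eq_comm])]
      have eU1 : mon M [.U, .V (.inr (q, s))] .U = 1 := by
        simp [mon_cons, mon_nil, Finsupp.single_apply]
      have eU2 : mon M (.U :: .V (.inl (M.nxt q s)) :: (List.replicate (M.b q s false) (.D false) ++
          List.replicate (M.b q s true) (.D true))) .U = 1 := by
        simp [mon_cons, mon_append, mon_replicate, Finsupp.single_apply]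
      rw [eU1, eU2]
      refine and_congr_right fun hU => and_congr (by simp [mon_cons, mon_nil, mon_append,
          mon_replicate, Finsupp.single_apply]) (and_congr_right fun hV => ?_)
      have hUx : mon M x .U = 0 := by
        simp only [Finsupp.add_apply] at hU
        omega
      have hUy : mon M y .U = 0 := by
        simp only [Finsupp.add_apply] at hU
        omega
      have hx0 : x = [] := path_a_nil ha1 ha2 x a hx hUx
      subst hx0
      have hCy : ∀ i, mon M y (.C i) = 0 := path_p2_C ha2 hp hb1 hb2 y b hy hUy
      have hl : ∀ i : Bool, M.a q s i * ((mon M [] + mon M y) (.C i) +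
          mon M [.U, .V (.inr (q, s))] (.C i)) + ((mon M [] + mon M y) (.D i) +
          mon M [.U, .V (.inr (q, s))] (.D i)) + M.b q s i
          = mon M y (.D i) + M.b q s i := by
        intro i
        simp [mon_cons, mon_nil, hCy]
      have hr : ∀ i : Bool, ((mon M [] + mon M y) (.D i) + mon M (.U :: .V (.inl (M.nxt q s)) ::
          (List.replicate (M.b q s false) (.D false) ++
          List.replicate (M.b q s true) (.D true))) (.D i)) + M.B * ((mon M [] + mon M y) (.C i) +
          mon M (.U :: .V (.inl (M.nxt q s)) ::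
          (List.replicate (M.b q s false) (.D false) ++
          List.replicate (M.b q s true) (.D true))) (.C i))
          = mon M y (.D i) + M.b q s i := by
        intro i
        simp only [mon_cons, mon_nil, mon_append, mon_replicate, Finsupp.add_apply,
          Finsupp.single_apply, reduceCtorEq, if_false, zero_add, add_zero, G.D.injEq, hCy,
          Finsupp.coe_zero, Pi.zero_apply]
        cases i <;> simp
      cases hq : M.nxt q s with
      | none =>
        unfold Good
        simp only [hq, iff_true]
        exact Sys.Halts.stop _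
      | some q' =>
        rw [hq] at hr
        unfold Good
        simp only [hl, hr, hq]
  · refine ctx M a p₁ p₂ b x y _ _ p₁ p₂ ?_ ?_ ?_
    · intro i k; simp [Path, src, tgt]
    · intro i k; simp [Path, src, tgt]
    · intro _ _
      rw [goodMon_add M _ _ (.inl none) (fun τ => by
          simp [mon_cons, mon_nil, Finsupp.single_apply, eq_comm]),
        goodMon_add M _ _ (.inl none) (fun τ => by
          simp [mon_cons, mon_nil, Finsupp.single_apply, eq_comm])]
      refine and_congr (by simp [mon_cons, mon_nil, Finsupp.single_apply])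
        (and_congr (by simp [mon_cons, mon_nil, Finsupp.single_apply])
        (and_congr Iff.rfl ?_))
      unfold Good
      simp

end Paths

end Pool.Agent.R571.PIW
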