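import Mathlib
import Pool.Agent.R571.PIW.Model

/-!
The algebra of the model (MP_79b5eb_lc).
-/

set_option autoImplicit false

universe u v

namespace Pool.Agent.R571.PIW

open Pool.Agent.Helper599.Core MvPolynomial

variable {Q : Type} (M : Sys Q Bool) (F : Type u) [Field F]
variable {ν : Type} [Fintype ν] [DecidableEq ν] (a p₁ p₂ b : ν)

/-- The matrix of a letter. -/
noncomputable def theta (g : G M) : Matrix ν ν (MvPolynomial (G M) F) :=
  Matrix.single (src M a p₁ p₂ g) (tgt M p₁ p₂ b g) (X g)

open Classical in
theorem theta_prod (z : List (G M)) (i j : ν) :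
    (z.map (theta M F a p₁ p₂ b)).prod i j
      = if Path M a p₁ p₂ b i z j then monomial (mon M z) 1 else 0 := by
  induction z generalizing i with
  | nil =>
    simp only [List.map_nil, List.prod_nil, Path, mon_nil, Matrix.one_apply]
    by_cases h : i = j <;> simp [h]
  | cons g z ih =>
    rw [List.map_cons, List.prod_cons]
    by_cases h : i = src M a p₁ p₂ g
    · subst h
      rw [theta, Matrix.single_mul_apply_same, ih]
      simp only [Path, true_and]
      split_ifs
      · rw [mon_cons, X, monomial_mul, one_mul]
      · rw [mul_zero]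
    · rw [theta, Matrix.single_mul_apply_of_ne]
      · simp [Path, h]
      · exact h

/-- The homomorphism from the free algebra to matrices. -/
noncomputable def Theta : FreeAlgebra F (G M) →ₐ[F] Matrix ν ν (MvPolynomial (G M) F) :=
  FreeAlgebra.lift F (theta M F a p₁ p₂ b)

/-- The word `z` in the free algebra. -/
noncomputable def word (z : List (G M)) : FreeAlgebra F (G M) := (z.map (FreeAlgebra.ι F)).prod

theorem word_append (y z : List (G M)) : word M F (y ++ z) = word M F y * word M F z := by
  simp [word]

theorem Theta_word (z : List (G M)) :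
    Theta M F a p₁ p₂ b (word M F z) = (z.map (theta M F a p₁ p₂ b)).prod := by
  unfold word Theta
  rw [map_list_prod, List.map_map]
  congr 1
  refine List.map_congr_left fun g _ => ?_
  simp

open Classical in
/-- The functional. -/
noncomputable def Lam : MvPolynomial (G M) F →ₗ[F] F :=
  (MvPolynomial.basisMonomials (G M) F).constr F fun m => if GoodMon M m then (1 : F) else 0

open Classical in
theorem Lam_monomial (m : G M →₀ ℕ) :
    Lam M F (monomial m 1) = if GoodMon M m then (1 : F) else 0 := by
  have := (MvPolynomial.basisMonomials (G M) F).constr_basis F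
    (fun m => if GoodMon M m then (1 : F) else 0) m
  rw [MvPolynomial.coe_basisMonomials] at this
  exact this

open Classical in
theorem Lam_word (z : List (G M)) :
    Lam M F (Theta M F a p₁ p₂ b (word M F z) a b) = if OK M a p₁ p₂ b z then (1 : F) else 0 := by
  rw [Theta_word, theta_prod]
  unfold OK
  by_cases h : Path M a p₁ p₂ b a z b
  · simp only [h, if_true, true_and]
    exact Lam_monomial M F _
  · simp [h]

/-- The functional on the free algebra. -/
noncomputable def lam : FreeAlgebra F (G M) →ₗ[F] F where
  toFun g := Lam M F (Theta M F a p₁ p₂ b g a b)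
  map_add' x y := by simp
  map_smul' c x := by simp

/-- The ideal of the model. -/
noncomputable def I : Ideal (FreeAlgebra F (G M)) where
  carrier := {g | ∀ x y, lam M F a p₁ p₂ b (x * g * y) = 0}
  add_mem' := by
    intro g h hg hh x y
    rw [mul_add, add_mul, map_add, hg, hh, add_zero]
  zero_mem' := by
    intro x y
    simp
  smul_mem' := by
    intro c g hg x y
    have := hg (x * c) y
    rwa [smul_eq_mul, ← mul_assoc]

theorem mem_I (g : FreeAlgebra F (G M)) :
    g ∈ I M F a p₁ p₂ b ↔ ∀ x y, lam M F a p₁ p₂ b (x * g * y) = 0 := Iff.rfl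

instance : (I M F a p₁ p₂ b).IsTwoSided where
  mul_mem_of_left := by
    intro g c hg x y
    have := hg x (c * y)
    rwa [← mul_assoc] at this ⊢

theorem span_words : Submodule.span F (Set.range (word M F)) = ⊤ := by
  rw [eq_top_iff]
  have h1 := FreeAlgebra.adjoin_range_ι (R := F) (X := G M)
  intro x _
  have hx : x ∈ Algebra.adjoin F (Set.range (FreeAlgebra.ι F : G M → FreeAlgebra F (G M))) := by
    rw [h1]; trivial
  rw [← Subalgebra.mem_toSubmodule, Algebra.adjoin_eq_span] at hx
  refine Submodule.span_mono ?_ hx
  intro y hy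
  obtain ⟨l, hl, rfl⟩ := Submonoid.exists_list_of_mem_closure hy
  have : ∃ z : List (G M), z.map (FreeAlgebra.ι F) = l := by
    clear hy hx
    induction l with
    | nil => exact ⟨[], rfl⟩
    | cons y l ih =>
      obtain ⟨z, hz⟩ := ih fun w hw => hl w (List.mem_cons_of_mem _ hw)
      obtain ⟨g, hg⟩ := hl y List.mem_cons_self
      exact ⟨g :: z, by rw [List.map_cons, hz, hg]⟩
  obtain ⟨z, rfl⟩ := this
  exact ⟨z, rfl⟩

/-- It suffices to test words. -/
theorem mem_I_of_words (g : FreeAlgebra F (G M))
    (h : ∀ x y : List (G M), lam M F a p₁ p₂ b (word M F x * g * word M F y) = 0) :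
    g ∈ I M F a p₁ p₂ b := by
  intro x y
  have h1 : ∀ x : List (G M), ∀ y, lam M F a p₁ p₂ b (word M F x * g * y) = 0 := by
    intro x y
    have hy : y ∈ Submodule.span F (Set.range (word M F)) := by rw [span_words]; trivial
    induction hy using Submodule.span_induction with
    | mem y hy => obtain ⟨z, rfl⟩ := hy; exact h x z
    | zero => simp
    | add y z _ _ hy hz => rw [mul_add, map_add, hy, hz, add_zero]
    | smul c y _ hy => rw [mul_smul_comm, map_smul, hy, smul_zero]
  have hx : x ∈ Submodule.span F (Set.range (word M F)) := by rw [span_words]; trivial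
  induction hx using Submodule.span_induction with
  | mem x hx => obtain ⟨z, rfl⟩ := hx; exact h1 z y
  | zero => simp
  | add x z _ _ hx hz => rw [add_mul, add_mul, map_add, hx, hz, add_zero]
  | smul c x _ hx => rw [smul_mul_assoc, smul_mul_assoc, map_smul, hx, smul_zero]

theorem lam_word (z : List (G M)) [Decidable (OK M a p₁ p₂ b z)] :
    lam M F a p₁ p₂ b (word M F z) = if OK M a p₁ p₂ b z then (1 : F) else 0 := by
  have := Lam_word M F a p₁ p₂ b z
  unfold lam
  simp only [LinearMap.coe_mk, AddHom.coe_mk]
  rw [this]
  congr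

theorem rel_mem_I (ha1 : a ≠ p₁) (ha2 : a ≠ p₂) (hp : p₁ ≠ p₂) (hb1 : b ≠ p₁) (hb2 : b ≠ p₂)
    (l r : List (G M)) (h : Rel M l r) : word M F l - word M F r ∈ I M F a p₁ p₂ b := by
  classical
  apply mem_I_of_words
  intro x y
  rw [mul_sub, sub_mul, map_sub, ← word_append, ← word_append, ← word_append, ← word_append,
    lam_word, lam_word]
  simp only [ok_iff M a p₁ p₂ b ha1 ha2 hp hb1 hb2 x y l r h, sub_self]

/-- The words for configurations. -/
theorem ok_config (q : Option Q) (N : ℕ) :
    OK M a p₁ p₂ b (.U :: .V (.inl q) :: (List.replicate N (.D true) ++ [.W])) ↔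
      Good M (.inl q) (fun _ => 0) (fun j => if j then N else 0) := by
  classical
  unfold OK
  have h1 : Path M a p₁ p₂ b a (.U :: .V (.inl q) :: (List.replicate N (.D true) ++ [.W])) b := by
    simp only [Path, src, tgt, path_replicate, true_and]
  have h2 := goodMon_add M 0 (mon M (.U :: .V (.inl q) :: (List.replicate N (.D true) ++ [.W])))
    (.inl q) (fun τ => by
      simp [mon_cons, mon_nil, mon_append, mon_replicate, Finsupp.single_apply, eq_comm])
  rw [zero_add] at h2
  rw [h2]
  simp only [h1, true_and]
  have e1 : mon M (.U :: .V (.inl q) :: (List.replicate N (.D true) ++ [.W])) .U = 1 := by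
    simp [mon_cons, mon_nil, mon_append, mon_replicate, Finsupp.single_apply]
  have e2 : mon M (.U :: .V (.inl q) :: (List.replicate N (.D true) ++ [.W])) .W = 1 := by
    simp [mon_cons, mon_nil, mon_append, mon_replicate, Finsupp.single_apply]
  have e3 : ∀ j, mon M (.U :: .V (.inl q) :: (List.replicate N (.D true) ++ [.W])) (.C j) = 0 := by
    intro j
    simp [mon_cons, mon_nil, mon_append, mon_replicate, Finsupp.single_apply]
  have e4 : ∀ j, mon M (.U :: .V (.inl q) :: (List.replicate N (.D true) ++ [.W])) (.D j)
      = if j then N else 0 := by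
    intro j
    cases j <;> simp [mon_cons, mon_nil, mon_append, mon_replicate, Finsupp.single_apply]
  simp only [e1, e2, e3, e4, Finsupp.coe_zero, Pi.zero_apply, zero_add, true_and, implies_true]

/-- In the model the machine does not stop. -/
theorem not_mem_I (q : Q) (N : ℕ) (h : ¬ M.Halts (some q) (fun j => if j then N else 0)) :
    word M F (.U :: .V (.inl (some q)) :: (List.replicate N (.D true) ++ [.W])) -
      word M F [.U, .V (.inl none), .W] ∉ I M F a p₁ p₂ b := by
  classical
  intro hI
  have h1 := (mem_I M F a p₁ p₂ b _).1 hI 1 1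
  rw [one_mul, mul_one, map_sub, lam_word, lam_word] at h1
  have e1 : ¬ OK M a p₁ p₂ b
      (.U :: .V (.inl (some q)) :: (List.replicate N (.D true) ++ [.W])) := by
    rw [ok_config]
    unfold Good
    simpa using h
  have e2 : OK M a p₁ p₂ b [.U, .V (.inl none), .W] := by
    have := (ok_config M a p₁ p₂ b none 0).2 trivial
    simpa using this
  rw [if_neg e1, if_pos e2] at h1
  simp at h1

end Pool.Agent.R571.PIW
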