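import Mathlib
import Pool.Agent.R571.PIW.Alg

/-!
The reduction (MP_79b5eb_lc).
-/

set_option autoImplicit false

universe u v

namespace Pool.Agent.R571.PIW

open Pool.Agent.Helper599.Core

/-! ### Evaluations -/

theorem foldl_map_mul {A : Type u} {R : Type v} [NonUnitalRing A] [Ring R] (φ : A → R)
    (hφ : ∀ a b, φ (a * b) = φ a * φ b) (x : ℕ → A) (l : List ℕ) (c : A) :
    φ (l.foldl (fun a i => a * x i) c) = φ c * (l.map fun i => φ (x i)).prod := by
  induction l generalizing c with
  | nil => simp
  | cons i l ih => rw [List.foldl_cons, ih, hφ, List.map_cons, List.prod_cons, mul_assoc]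

section Enc

variable {X : Type} (e : X → ℕ)

/-- The code of a nonempty word. -/
def wd : List X → ℕ × List ℕ
  | [] => (0, [])
  | g :: l => (e g, l.map e)

/-- The difference of two words as a polynomial. -/
def relP (l r : List X) : NCPoly ℤ := [(1, wd e l), (-1, wd e r)]

theorem wordEval_wd {A : Type u} {R : Type v} [NonUnitalRing A] [Ring R] (φ : A → R)
    (hφ : ∀ a b, φ (a * b) = φ a * φ b) (x : ℕ → A) (l : List X) (hl : l ≠ []) :
    φ (wordEval x (wd e l)) = (l.map fun g => φ (x (e g))).prod := by
  cases l with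
  | nil => exact absurd rfl hl
  | cons g l =>
    unfold wordEval wd
    rw [foldl_map_mul φ hφ, List.map_map, List.map_cons, List.prod_cons]
    rfl

theorem evalP_relP {A : Type u} [NonUnitalRing A] (x : ℕ → A) (l r : List X) :
    evalP x (relP e l r) = wordEval x (wd e l) - wordEval x (wd e r) := by
  simp [evalP, relP, sub_eq_add_neg]

end Enc

/-- The embedding in the unitization. -/
def inrHom (A : Type u) [NonUnitalRing A] (a : A) : Unitization ℤ A := (a : Unitization ℤ A)

theorem inrHom_mul (A : Type u) [NonUnitalRing A] (a b : A) :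
    inrHom A (a * b) = inrHom A a * inrHom A b := Unitization.inr_mul ℤ a b

theorem inrHom_injective (A : Type u) [NonUnitalRing A] : Function.Injective (inrHom A) :=
  Unitization.inr_injective

section Machine

variable {Q : Type} (M : Sys Q Bool) (e : G M → ℕ)

theorem rel_ne_nil (l r : List (G M)) (h : Rel M l r) : l ≠ [] ∧ r ≠ [] := by
  rcases h with ⟨rfl, rfl⟩ | ⟨rfl, rfl⟩ | ⟨q, j, rfl, rfl⟩ | ⟨q, s, rfl, rfl⟩ | ⟨q, s, j, rfl, rfl⟩ |
    ⟨q, s, rfl, rfl⟩ | ⟨j, rfl, rfl⟩ <;> simp

/-- The starting word. -/
def ini (q : Q) (N : ℕ) : List (G M) :=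
  .U :: .V (.inl (some q)) :: (List.replicate N (.D true) ++ [.W])

/-- The final word. -/
def fin : List (G M) := [.U, .V (.inl none), .W]

/-- The relations as polynomials. -/
noncomputable def rels [Finite Q] : List (NCPoly ℤ) :=
  (rel_finite M).toFinset.toList.map fun p => relP e p.1 p.2

theorem mem_rels [Finite Q] (l r : List (G M)) (h : Rel M l r) : relP e l r ∈ rels M e := by
  unfold rels
  refine List.mem_map.2 ⟨(l, r), ?_, rfl⟩
  rw [Finset.mem_toList, Set.Finite.mem_toFinset]
  exact h

theorem of_mem_rels [Finite Q] (p : NCPoly ℤ) (h : p ∈ rels M e) :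
    ∃ l r, Rel M l r ∧ p = relP e l r := by
  unfold rels at h
  obtain ⟨⟨l, r⟩, hp, rfl⟩ := List.mem_map.1 h
  rw [Finset.mem_toList, Set.Finite.mem_toFinset] at hp
  exact ⟨l, r, hp, rfl⟩

/-- If the machine stops, then the quasi-identity holds in all algebras. -/
theorem holds_of_halts [Finite Q] (q : Q) (N : ℕ)
    (h : M.Halts (some q) (fun j => if j then N else 0)) (A : Type u) [NonUnitalRing A]
    (x : ℕ → A) (hx : ∀ p ∈ rels M e, evalP x p = 0) : evalP x (relP e (ini M q N) (fin M)) = 0 := by
  have hrel : ∀ l r, Rel M l r → (l.map fun g => inrHom A (x (e g))).prod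
      = (r.map fun g => inrHom A (x (e g))).prod := by
    intro l r hlr
    have h1 := hx _ (mem_rels M e l r hlr)
    rw [evalP_relP, sub_eq_zero] at h1
    obtain ⟨hl, hr⟩ := rel_ne_nil M l r hlr
    rw [← wordEval_wd e (inrHom A) (inrHom_mul A) x l hl,
      ← wordEval_wd e (inrHom A) (inrHom_mul A) x r hr, h1]
  have h2 := derive (fun g => inrHom A (x (e g))) hrel _ _ h
  rw [evalP_relP, sub_eq_zero]
  apply inrHom_injective A
  rw [wordEval_wd e (inrHom A) (inrHom_mul A) x _ (by simp [ini]),
    wordEval_wd e (inrHom A) (inrHom_mul A) x _ (by simp [fin])]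
  simpa [ini, fin, mul_assoc] using h2

/-- The assignment in the model: the variables which are not letters are `0`. -/
noncomputable def asg {A : Type u} [Zero A] (y : G M → A) : ℕ → A := Function.extend e y 0

theorem asg_apply {A : Type u} [Zero A] (y : G M → A) (he : Function.Injective e) (g : G M) :
    asg M e y (e g) = y g := he.extend_apply _ _ _

end Machine

/-- The query is computable. -/
theorem query_computable {Q : Type} (M : Sys Q Bool) (e : G M → ℕ) (q : Q) (N : ℕ → ℕ)
    (hN : Computable N) : Computable (fun n => relP e (ini M q (N n)) (fin M)) := by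
  have h1 : ∀ n, relP e (ini M q (N n)) (fin M)
      = (((1 : ℤ), (e .U, e (.V (.inl (some q))) :: ((List.range (N n)).map (fun _ => e (.D true))
        ++ [e .W]))) :: [((-1 : ℤ), wd e (fin M))]) := by
    intro n
    simp only [relP, ini, wd, List.map_cons, List.map_append, List.map_replicate, List.map_nil,
      List.map_const', List.length_range]
  have h2 : Primrec (fun k : ℕ => ((List.range k).map (fun _ => e (.D true)))) :=
    Primrec.list_map Primrec.list_range (Primrec.const _).to₂
  have h3 : Primrec (fun k : ℕ => (((1 : ℤ), (e .U, e (.V (.inl (some q))) ::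
      ((List.range k).map (fun _ => e (.D true)) ++ [e .W]))) ::
        [((-1 : ℤ), wd e (fin M))] : List (ℤ × (ℕ × List ℕ)))) :=
    Primrec.list_cons.comp (Primrec.pair (Primrec.const _) (Primrec.pair (Primrec.const _)
      (Primrec.list_cons.comp (Primrec.const _) (Primrec.list_append.comp h2 (Primrec.const _)))))
      (Primrec.const _)
  exact (h3.to_comp.comp hN).of_eq fun n => (h1 n).symm

end Pool.Agent.R571.PIW
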