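import Mathlib
import Pool.Agent.R571.PIW.Red

/-!
The equality problem in `M(n)`, `n ≥ 3` (MP_79b5eb_lc).
-/

set_option autoImplicit false

universe u v

namespace Pool.Agent.R571.PIW

open Pool.Agent.Helper599.Core MvPolynomial

theorem wordEval_map {A : Type u} {B : Type v} [Mul A] [Mul B] (φ : A → B)
    (hφ : ∀ a b, φ (a * b) = φ a * φ b) (x : ℕ → A) (w : ℕ × List ℕ) :
    φ (wordEval x w) = wordEval (fun i => φ (x i)) w := by
  obtain ⟨i, l⟩ := w
  unfold wordEval
  simp only
  have : ∀ c : A, φ (l.foldl (fun a i => a * x i) c) = l.foldl (fun a i => a * φ (x i)) (φ c) := by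
    induction l with
    | nil => intro c; rfl
    | cons j l ih => intro c; rw [List.foldl_cons, List.foldl_cons, ih, hφ]
  exact this _

theorem evalP_map {F A B : Type*} [Field F] [NonUnitalRing A] [NonUnitalRing B] [Module F A]
    [Module F B] (φ : A →ₗ[F] B) (hφ : ∀ a b, φ (a * b) = φ a * φ b) (x : ℕ → A) (f : NCPoly F) :
    φ (evalP x f) = evalP (fun i => φ (x i)) f := by
  unfold evalP
  rw [map_list_sum, List.map_map]
  congr 1
  refine List.map_congr_left fun c _ => ?_
  simp only [Function.comp_apply, map_smul]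
  rw [wordEval_map φ hφ]

theorem evalP_algHom {F A B : Type*} [Field F] [Ring A] [Ring B] [Algebra F A]
    [Algebra F B] (φ : A →ₐ[F] B) (x : ℕ → A) (f : NCPoly F) :
    φ (evalP x f) = evalP (fun i => φ (x i)) f :=
  evalP_map φ.toLinearMap (fun a b => map_mul φ a b) x f

/-- Identities of matrices over an infinite field are identities of matrices over polynomials. -/
theorem identity_mvPolynomial {F : Type u} [Field F] [Infinite F] {X : Type} {n : ℕ}
    (f : NCPoly F) (hf : ∀ x : ℕ → Matrix (Fin n) (Fin n) F, evalP x f = 0)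
    (x : ℕ → Matrix (Fin n) (Fin n) (MvPolynomial X F)) : evalP x f = 0 := by
  ext1 i j
  apply MvPolynomial.funext
  intro v
  have h1 := evalP_algHom ((aeval v : MvPolynomial X F →ₐ[F] F).mapMatrix (m := Fin n)) x f
  rw [hf] at h1
  have h2 := congrFun (congrFun h1 i) j
  simp only [AlgHom.mapMatrix_apply, Matrix.map_apply, Matrix.zero_apply] at h2
  rw [Matrix.zero_apply, map_zero]
  exact h2

section

variable {Q : Type} (M : Sys Q Bool) (F : Type u) [Field F] [CharZero F]

theorem model_inM {n : ℕ} (a p₁ p₂ b : Fin n) :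
    InM n F (FreeAlgebra F (G M) ⧸ I M F a p₁ p₂ b) := by
  intro f hf x
  have : Infinite F := inferInstance
  choose y hy using fun i => Ideal.Quotient.mk_surjective (I := I M F a p₁ p₂ b) (x i)
  have hx : x = fun i => Ideal.Quotient.mk (I M F a p₁ p₂ b) (y i) := funext fun i => (hy i).symm
  have h1 := evalP_algHom (Ideal.Quotient.mkₐ F (I M F a p₁ p₂ b)) y f
  simp only [Ideal.Quotient.mkₐ_eq_mk] at h1
  rw [hx, ← h1, Ideal.Quotient.eq_zero_iff_mem, mem_I]
  intro u w
  have h2 := evalP_algHom (Theta M F a p₁ p₂ b) y f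
  rw [identity_mvPolynomial f hf] at h2
  unfold lam
  simp only [LinearMap.coe_mk, AddHom.coe_mk, map_mul, h2]
  simp

theorem not_holdsM [Finite Q] (e : G M → ℕ) (he : Function.Injective e) (n : ℕ) (hn : 3 ≤ n)
    (q : Q) (N : ℕ) (h : ¬ M.Halts (some q) (fun j => if j then N else 0)) :
    ¬ HoldsM n F (rels M e) (relP e (ini M q N) (fin M)) := by
  intro hH
  set a : Fin n := ⟨0, by omega⟩ with ha
  set p₁ : Fin n := ⟨1, by omega⟩ with hp1
  set p₂ : Fin n := ⟨2, by omega⟩ with hp2
  have d1 : a ≠ p₁ := by simp [ha, hp1]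
  have d2 : a ≠ p₂ := by simp [ha, hp2]
  have d3 : p₁ ≠ p₂ := by simp [hp1, hp2]
  set mk := Ideal.Quotient.mk (I M F a p₁ p₂ a) with hmk
  set y : G M → FreeAlgebra F (G M) ⧸ I M F a p₁ p₂ a := fun g => mk (FreeAlgebra.ι F g) with hy
  have hw : ∀ l : List (G M), l ≠ [] → wordEval (asg M e y) (wd e l) = mk (word M F l) := by
    intro l hl
    have := wordEval_wd e (fun r : FreeAlgebra F (G M) ⧸ I M F a p₁ p₂ a => r) (fun _ _ => rfl)
      (asg M e y) l hl
    rw [this]
    simp only [asg_apply M e y he]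
    unfold word
    rw [map_list_prod, List.map_map]
    rfl
  have h1 := hH (FreeAlgebra F (G M) ⧸ I M F a p₁ p₂ a) (model_inM M F a p₁ p₂ a)
    (asg M e y) (by
      intro p hp
      obtain ⟨l, r, hlr, rfl⟩ := of_mem_rels M e p hp
      obtain ⟨hl, hr⟩ := rel_ne_nil M l r hlr
      rw [evalP_relP, hw l hl, hw r hr, ← map_sub, hmk, Ideal.Quotient.eq_zero_iff_mem]
      exact rel_mem_I M F a p₁ p₂ a d1 d2 d3 d1 d2 l r hlr)
  rw [evalP_relP, hw _ (by simp [ini]), hw _ (by simp [fin]), ← map_sub, hmk,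
    Ideal.Quotient.eq_zero_iff_mem] at h1
  exact not_mem_I M F a p₁ p₂ a q N h h1

end

/-- The word problem of one finitely presented algebra of `M(n)`, `n ≥ 3`. -/
theorem undecidableM : ∃ us : List (NCPoly ℤ), ∀ n : ℕ, 3 ≤ n → ∀ (F : Type u) [Field F]
    [CharZero F], ¬ ComputablePred fun w : NCPoly ℤ => HoldsM n F us w := by
  obtain ⟨Q, hQ, M, q, N, -, hN, hund⟩ := Pool.Agent.Helper599.Source.exists_sys
  obtain ⟨e, he⟩ : ∃ e : G M → ℕ, Function.Injective e := Countable.exists_injective_nat (G M)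
  refine ⟨rels M e, fun n hn F _ _ hdec => hund ?_⟩
  refine ComputablePred.computable_of_manyOneReducible
    (q := fun w : NCPoly ℤ => HoldsM n F (rels M e) w) ⟨_, query_computable M e q N hN, ?_⟩ hdec
  intro k
  constructor
  · intro h A _ _ _ _ _ x hx
    exact holds_of_halts M e q (N k) h A x hx
  · intro h
    by_contra hcon
    exact not_holdsM M F e he n hn q (N k) hcon h

end Pool.Agent.R571.PIW
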