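import Mathlib
import Pool.Agent.R571.PIW.MainM

/-!
The equality problem in `S(n)`, `n ≥ 6` (MP_79b5eb_lc).
-/

set_option autoImplicit false

universe u v

namespace Pool.Agent.R571.PIW

open Pool.Agent.Helper599.Core MvPolynomial

section Standard

variable {C : Type u} [CommRing C]

/-- The positions which may be nonzero. -/
def Allowed (p : Fin 4 × Fin 4) : Prop := p.1 ≤ p.2 ∧ p ≠ (0, 0) ∧ p ≠ (3, 3)

instance : DecidablePred Allowed := fun p => by unfold Allowed; infer_instance

theorem rank_lt : ∀ p q : Fin 4 × Fin 4, Allowed p → Allowed q → p ≠ q → p.2 = q.1 →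
    (p.1 : ℕ) + p.2 < (q.1 : ℕ) + q.2 := by
  decide

theorem rank_le : ∀ p : Fin 4 × Fin 4, Allowed p →
    (p.1 : ℕ) + p.2 ≤ 5 ∧ 1 ≤ (p.1 : ℕ) + p.2 := by
  decide

/-- A matrix unit. -/
def mu (p : Fin 4 × Fin 4) : Matrix (Fin 4) (Fin 4) C := Matrix.single p.1 p.2 1

theorem prod_units (l : List (Fin 4 × Fin 4)) (p : Fin 4 × Fin 4) (hp : Allowed p)
    (hl : ∀ q ∈ l, Allowed q) (hnd : (p :: l).Nodup)
    (h : ((p :: l).map (mu (C := C))).prod ≠ 0) : l.length + ((p.1 : ℕ) + p.2) ≤ 5 := by
  induction l generalizing p with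
  | nil => simpa using (rank_le p hp).1
  | cons q l ih =>
    have hq : Allowed q := hl q List.mem_cons_self
    have hpq : p ≠ q := by
      intro h
      subst h
      simp at hnd
    have hnd' : (q :: l).Nodup := (List.nodup_cons.1 hnd).2
    rw [List.map_cons, List.prod_cons] at h
    have h1 : ((q :: l).map (mu (C := C))).prod ≠ 0 := by
      intro h0
      rw [h0, mul_zero] at h
      exact h rfl
    have h2 := ih q hq (fun r hr => hl r (List.mem_cons_of_mem _ hr)) hnd' h1
    have h3 : p.2 = q.1 := by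
      by_contra hne
      apply h
      rw [List.map_cons, List.prod_cons, ← mul_assoc]
      unfold mu
      rw [Matrix.single_mul_single_of_ne _ _ _ _ hne, zero_mul]
    have h4 := rank_lt p q hp hq hpq h3
    simp only [List.length_cons]
    omega

theorem alt_units {n : ℕ} (hn : 6 ≤ n) (r : Fin n → Fin 4 × Fin 4) (hr : ∀ i, Allowed (r i)) :
    MultilinearMap.alternatization
      (MultilinearMap.mkPiAlgebraFin C n (Matrix (Fin 4) (Fin 4) C)) (fun i => mu (r i)) = 0 := by
  by_cases hinj : Function.Injective r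
  · rw [MultilinearMap.alternatization_apply]
    refine Finset.sum_eq_zero fun σ _ => ?_
    have : (MultilinearMap.mkPiAlgebraFin C n (Matrix (Fin 4) (Fin 4) C))
        (fun i => mu (r (σ i))) = 0 := by
      rw [MultilinearMap.mkPiAlgebraFin_apply]
      by_contra h0
      have e : (List.ofFn fun i => (mu (r (σ i)) : Matrix (Fin 4) (Fin 4) C))
          = (List.ofFn fun i => r (σ i)).map mu := by
        rw [List.map_ofFn]; rfl
      rw [e] at h0
      have hlen : (List.ofFn fun i => r (σ i)).length = n := List.length_ofFn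
      have hnd : (List.ofFn fun i => r (σ i)).Nodup :=
        List.nodup_ofFn.2 (hinj.comp σ.injective)
      have hall : ∀ q ∈ (List.ofFn fun i => r (σ i)), Allowed q := by
        intro q hq
        rw [List.mem_ofFn] at hq
        obtain ⟨i, rfl⟩ := hq
        exact hr _
      cases hl : (List.ofFn fun i => r (σ i)) with
      | nil => rw [hl] at hlen; simp at hlen; omega
      | cons p l =>
        rw [hl] at h0 hnd hall hlen
        have h1 := prod_units l p (hall p List.mem_cons_self)
          (fun q hq => hall q (List.mem_cons_of_mem _ hq)) hnd h0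
        have h2 := (rank_le p (hall p List.mem_cons_self)).2
        simp only [List.length_cons] at hlen
        omega
    simp only [MultilinearMap.domDomCongr_apply, this, smul_zero]
  · obtain ⟨i, j, hij, hne⟩ : ∃ i j, r i = r j ∧ i ≠ j := by
      by_contra hcon
      push Not at hcon
      exact hinj fun i j h => hcon i j h
    exact AlternatingMap.map_eq_zero_of_eq _ _ (by simp [hij]) hne

/-- Strict upper triangularity at the ends. -/
def Str (N : Matrix (Fin 4) (Fin 4) C) : Prop := ∀ p : Fin 4 × Fin 4, ¬ Allowed p → N p.1 p.2 = 0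

theorem str_eq (N : Matrix (Fin 4) (Fin 4) C) (h : Str N) :
    N = ∑ p ∈ Finset.univ.filter Allowed, N p.1 p.2 • mu p := by
  ext i j
  rw [Matrix.sum_apply]
  simp only [Matrix.smul_apply, mu, Matrix.single_apply, smul_eq_mul]
  by_cases ha : Allowed (i, j)
  · rw [Finset.sum_eq_single (i, j)]
    · simp
    · rintro ⟨k, l⟩ - hne
      rw [if_neg, mul_zero]
      rintro ⟨rfl, rfl⟩
      exact hne rfl
    · intro h; simp [ha] at h
  · have h0 := h (i, j) ha
    simp only at h0
    rw [h0, eq_comm]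
    refine Finset.sum_eq_zero fun p hp => ?_
    rw [if_neg, mul_zero]
    rintro ⟨rfl, rfl⟩
    simp only [Finset.mem_filter, Finset.mem_univ, true_and] at hp
    exact ha hp

theorem alt_str {n : ℕ} (hn : 6 ≤ n) (x : Fin n → Matrix (Fin 4) (Fin 4) C)
    (hx : ∀ i, Str (x i)) :
    MultilinearMap.alternatization
      (MultilinearMap.mkPiAlgebraFin C n (Matrix (Fin 4) (Fin 4) C)) x = 0 := by
  classical
  have e : x = fun i => ∑ p ∈ Finset.univ.filter Allowed, x i p.1 p.2 • mu p :=
    funext fun i => str_eq (x i) (hx i)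
  rw [e, ← AlternatingMap.coe_multilinearMap, MultilinearMap.map_sum_finset]
  refine Finset.sum_eq_zero fun r hr => ?_
  rw [Fintype.mem_piFinset] at hr
  rw [MultilinearMap.map_smul_univ, AlternatingMap.coe_multilinearMap,
    alt_units hn r fun i => (Finset.mem_filter.1 (hr i)).2, smul_zero]

theorem Str.mul {N P : Matrix (Fin 4) (Fin 4) C} (hN : Str N) (hP : Str P) : Str (N * P) := by
  intro p hp
  rw [Matrix.mul_apply]
  refine Finset.sum_eq_zero fun k _ => ?_
  by_cases h1 : Allowed (p.1, k)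
  · by_cases h2 : Allowed (k, p.2)
    · exfalso
      revert hp h1 h2
      revert k p
      decide
    · rw [hP _ h2, mul_zero]
  · rw [hN _ h1, zero_mul]

theorem Str.add {N P : Matrix (Fin 4) (Fin 4) C} (hN : Str N) (hP : Str P) : Str (N + P) := by
  intro p hp
  rw [Matrix.add_apply, hN p hp, hP p hp, add_zero]

end Standard

theorem listProd_map {A : Type u} {R : Type v} [NonUnitalRing A] [Ring R] (φ : A → R)
    (hφ : ∀ a b, φ (a * b) = φ a * φ b) (l : List A) (hl : l ≠ []) :
    φ (listProd l) = (l.map φ).prod := by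
  cases l with
  | nil => exact absurd rfl hl
  | cons c l =>
    have : ∀ c : A, φ (l.foldl (· * ·) c) = φ c * (l.map φ).prod := by
      induction l with
      | nil => intro c; simp
      | cons d l ih =>
        intro c
        rw [List.foldl_cons, ih (by simp), hφ, List.map_cons, List.prod_cons, mul_assoc]
    rw [List.map_cons, List.prod_cons]
    exact this c

section

variable {Q : Type} (M : Sys Q Bool) (F : Type u) [Field F] [CharZero F]

/-- The nonunital algebra of the model. -/
noncomputable def modelS :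
    NonUnitalSubalgebra F (FreeAlgebra F (G M) ⧸ I M F (0 : Fin 4) 1 2 3) where
  carrier := {α | ∃ g, Ideal.Quotient.mk (I M F (0 : Fin 4) 1 2 3) g = α ∧
    Str (Theta M F (0 : Fin 4) 1 2 3 g)}
  add_mem' := by
    rintro _ _ ⟨g, rfl, hg⟩ ⟨h, rfl, hh⟩
    exact ⟨g + h, map_add _ _ _, by rw [map_add]; exact hg.add hh⟩
  zero_mem' := ⟨0, map_zero _, by rw [map_zero]; intro p _; rfl⟩
  mul_mem' := by
    rintro _ _ ⟨g, rfl, hg⟩ ⟨h, rfl, hh⟩
    exact ⟨g * h, map_mul _ _ _, by rw [map_mul]; exact hg.mul hh⟩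
  smul_mem' := by
    rintro c _ ⟨g, rfl, hg⟩
    refine ⟨c • g, rfl, ?_⟩
    rw [map_smul]
    intro p hp
    rw [Matrix.smul_apply, hg p hp, smul_zero]

theorem model_inS {n : ℕ} (hn : 6 ≤ n) : InS n (modelS M F) := by
  intro x
  choose g hg1 hg2 using fun i => (x i).2
  apply Subtype.ext
  have e1 : ((∑ σ : Equiv.Perm (Fin n), (Equiv.Perm.sign σ : ℤ) •
      listProd (List.ofFn fun i => x (σ i)) : modelS M F) :
      FreeAlgebra F (G M) ⧸ I M F (0 : Fin 4) 1 2 3)
      = Ideal.Quotient.mk _ (∑ σ : Equiv.Perm (Fin n), (Equiv.Perm.sign σ : ℤ) •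
        (List.ofFn fun i => g (σ i)).prod) := by
    rw [map_sum]
    have h0 : ∀ (t : Finset (Equiv.Perm (Fin n))) (f : Equiv.Perm (Fin n) → modelS M F),
        ((∑ σ ∈ t, f σ : modelS M F) : FreeAlgebra F (G M) ⧸ I M F (0 : Fin 4) 1 2 3)
          = ∑ σ ∈ t, ((f σ : modelS M F) : FreeAlgebra F (G M) ⧸ I M F (0 : Fin 4) 1 2 3) := by
      intro t f
      exact map_sum (NonUnitalSubalgebraClass.subtype (modelS M F)) f t
    rw [h0]
    refine Finset.sum_congr rfl fun σ _ => ?_
    rw [map_zsmul, map_list_prod, List.map_ofFn]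
    have h1 := listProd_map (fun a : modelS M F =>
      (a : FreeAlgebra F (G M) ⧸ I M F (0 : Fin 4) 1 2 3)) (fun _ _ => rfl)
      (List.ofFn fun i => x (σ i)) (by
        intro h
        have := congrArg List.length h
        simp at this
        omega)
    have h2 : (((Equiv.Perm.sign σ : ℤ) • listProd (List.ofFn fun i => x (σ i)) : modelS M F) :
        FreeAlgebra F (G M) ⧸ I M F (0 : Fin 4) 1 2 3) = (Equiv.Perm.sign σ : ℤ) •
        ((listProd (List.ofFn fun i => x (σ i)) : modelS M F) :
          FreeAlgebra F (G M) ⧸ I M F (0 : Fin 4) 1 2 3) := rfl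
    rw [h2, h1, List.map_ofFn]
    congr 2
    congr 1
    funext i
    exact (hg1 (σ i)).symm
  rw [e1]
  have e2 : Theta M F (0 : Fin 4) 1 2 3 (∑ σ : Equiv.Perm (Fin n), (Equiv.Perm.sign σ : ℤ) •
        (List.ofFn fun i => g (σ i)).prod) = 0 := by
    have h1 := alt_str hn (fun i => Theta M F (0 : Fin 4) 1 2 3 (g i)) hg2
    rw [MultilinearMap.alternatization_apply] at h1
    rw [map_sum, ← h1]
    refine Finset.sum_congr rfl fun σ _ => ?_
    rw [map_zsmul, map_list_prod, List.map_ofFn]
    rfl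
  have e3 : (∑ σ : Equiv.Perm (Fin n), (Equiv.Perm.sign σ : ℤ) •
        (List.ofFn fun i => g (σ i)).prod) ∈ I M F (0 : Fin 4) 1 2 3 := by
    rw [mem_I]
    intro u w
    unfold lam
    simp only [LinearMap.coe_mk, AddHom.coe_mk, map_mul, e2]
    simp
  exact Ideal.Quotient.eq_zero_iff_mem.2 e3

theorem str_letter (g : G M) : Str (Theta M F (0 : Fin 4) 1 2 3 (FreeAlgebra.ι F g)) := by
  intro p hp
  unfold Theta theta
  rw [FreeAlgebra.lift_ι_apply, Matrix.single_apply, if_neg]
  rintro ⟨h1, h2⟩
  apply hp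
  obtain ⟨p1, p2⟩ := p
  cases g <;> simp only [src, tgt] at h1 h2 <;> subst h1 <;> subst h2 <;> decide

theorem not_holdsS [Finite Q] (e : G M → ℕ) (he : Function.Injective e) (n : ℕ) (hn : 6 ≤ n)
    (q : Q) (N : ℕ) (h : ¬ M.Halts (some q) (fun j => if j then N else 0)) :
    ¬ HoldsS n F (rels M e) (relP e (ini M q N) (fin M)) := by
  intro hH
  have d1 : (0 : Fin 4) ≠ 1 := by decide
  have d2 : (0 : Fin 4) ≠ 2 := by decide
  have d3 : (1 : Fin 4) ≠ 2 := by decide
  have d4 : (3 : Fin 4) ≠ 1 := by decide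
  have d5 : (3 : Fin 4) ≠ 2 := by decide
  set mk := Ideal.Quotient.mk (I M F (0 : Fin 4) 1 2 3) with hmk
  set y : G M → modelS M F := fun g => ⟨mk (FreeAlgebra.ι F g), _, rfl, str_letter M F g⟩ with hy
  have hw : ∀ l : List (G M), l ≠ [] →
      ((wordEval (asg M e y) (wd e l) : modelS M F) :
        FreeAlgebra F (G M) ⧸ I M F (0 : Fin 4) 1 2 3) = mk (word M F l) := by
    intro l hl
    have := wordEval_wd e (fun r : modelS M F =>
      (r : FreeAlgebra F (G M) ⧸ I M F (0 : Fin 4) 1 2 3)) (fun _ _ => rfl) (asg M e y) l hl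
    rw [this]
    simp only [asg_apply M e y he]
    unfold word
    rw [map_list_prod, List.map_map]
    rfl
  have h1 := hH (modelS M F) (model_inS M F hn) (asg M e y) (by
      intro p hp
      obtain ⟨l, r, hlr, rfl⟩ := of_mem_rels M e p hp
      obtain ⟨hl, hr⟩ := rel_ne_nil M l r hlr
      rw [evalP_relP]
      apply Subtype.ext
      rw [NonUnitalSubalgebra.coe_sub, hw l hl, hw r hr, ← map_sub, hmk]
      exact Ideal.Quotient.eq_zero_iff_mem.2
        (rel_mem_I M F 0 1 2 3 d1 d2 d3 d4 d5 l r hlr))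
  rw [evalP_relP] at h1
  have h2 := congrArg (fun r : modelS M F =>
      (r : FreeAlgebra F (G M) ⧸ I M F (0 : Fin 4) 1 2 3)) h1
  simp only [NonUnitalSubalgebra.coe_sub, hw _ (show ini M q N ≠ [] by simp [ini]),
    hw _ (show fin M ≠ [] by simp [fin])] at h2
  rw [← map_sub] at h2
  exact not_mem_I M F 0 1 2 3 q N h (Ideal.Quotient.eq_zero_iff_mem.1 h2)

end

/-- The word problem of one finitely presented algebra of `S(n)`, `n ≥ 6`. -/
theorem undecidableS : ∃ us : List (NCPoly ℤ), ∀ n : ℕ, 6 ≤ n → ∀ (F : Type u) [Field F]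
    [CharZero F], ¬ ComputablePred fun w : NCPoly ℤ => HoldsS n F us w := by
  obtain ⟨Q, hQ, M, q, N, -, hN, hund⟩ := Pool.Agent.Helper599.Source.exists_sys
  obtain ⟨e, he⟩ : ∃ e : G M → ℕ, Function.Injective e := Countable.exists_injective_nat (G M)
  refine ⟨rels M e, fun n hn F _ _ hdec => hund ?_⟩
  refine ComputablePred.computable_of_manyOneReducible
    (q := fun w : NCPoly ℤ => HoldsS n F (rels M e) w) ⟨_, query_computable M e q N hN, ?_⟩ hdec
  intro k
  constructor
  · intro h A _ _ _ _ _ x hx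
    exact holds_of_halts M e q (N k) h A x hx
  · intro h
    by_contra hcon
    exact not_holdsS M F e he n hn q (N k) hcon h

end Pool.Agent.R571.PIW
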